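import Pool.Agent.Helper19.HV.Curve
import Pool.Agent.Helper91.PL.A1
import Pool.Agent.Helper91.PL.A2

/-!
# Project HV (MP_bae8ce_ag), module RIG: rigidity by the path `t ↦ s t`
-/

set_option autoImplicit false

namespace Pool.Agent.Helper19.HV

open PL

private noncomputable def rT {G : Type} [Field G] (l : V G →ₗ[ℚ] ℚ) : ZP G →ₗ[ℚ] ZP G :=
  Finsupp.linearCombination ℚ (fun x => l (cl x) • (Finsupp.single x 1 : ZP G))

private theorem rT_single {G : Type} [Field G] (l : V G →ₗ[ℚ] ℚ) (x : P1 G) (c : ℚ) :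
    rT l (Finsupp.single x c) = c • (l (cl x) • (Finsupp.single x 1 : ZP G)) := by
  rw [rT, Finsupp.linearCombination_single]

private theorem r_mapP_single {G G' : Type} [Field G] [Field G'] (τ : G →+* G') (x : P1 G) (c : ℚ) :
    mapP τ (Finsupp.single x c) = Finsupp.single (Option.map τ x) c := by
  rw [mapP, Finsupp.lmapDomain_apply, Finsupp.mapDomain_single]

private theorem r_spec_single {G : Type} [Field G] (a : G) (x : P1 (RatFunc G)) (c : ℚ) :
    spec a (Finsupp.single x c) = Finsupp.single (val a x) c := by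
  rw [spec, Finsupp.lmapDomain_apply, Finsupp.mapDomain_single]

private theorem r_cl_map {G G' : Type} [Field G] [Field G'] (τ : G →+* G') (L : V G →ₗ[ℚ] V G')
    (hL : ∀ x, L (lg x) = lg (τ x)) (x : P1 G) : cl (Option.map τ x) = L (cl x) := by
  cases x with
  | none => exact (map_zero L).symm
  | some x => exact (hL x).symm

private theorem rT_map {G G' : Type} [Field G] [Field G'] (τ : G →+* G') (L : V G →ₗ[ℚ] V G')
    (hL : ∀ x, L (lg x) = lg (τ x)) (l : V G' →ₗ[ℚ] ℚ) (α : ZP G) :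
    rT l (mapP τ α) = mapP τ (rT (l ∘ₗ L) α) := by
  have h : rT l ∘ₗ mapP τ = mapP τ ∘ₗ rT (l ∘ₗ L) := by
    apply Finsupp.lhom_ext
    intro x c
    rw [LinearMap.comp_apply, LinearMap.comp_apply, r_mapP_single, rT_single, rT_single, map_smul,
      map_smul, r_mapP_single, r_cl_map τ L hL, LinearMap.comp_apply]
  exact LinearMap.congr_fun h α

private theorem rT_add {G : Type} [Field G] (l l' : V G →ₗ[ℚ] ℚ) (α : ZP G) :
    rT (l + l') α = rT l α + rT l' α := by
  have h : rT (l + l') = rT l + rT l' := by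
    apply Finsupp.lhom_ext
    intro x c
    rw [LinearMap.add_apply, rT_single, rT_single, rT_single, LinearMap.add_apply, add_smul,
      smul_add]
  rw [h, LinearMap.add_apply]

private theorem rT_od {F : Type} [Field F] {od : V (RatFunc F) →ₗ[ℚ] (F →₀ ℚ)}
    (l : V (RatFunc F) →ₗ[ℚ] ℚ) (S : Submodule ℚ (ZP (RatFunc F))) (α : ZP (RatFunc F))
    (hRES : ∀ a : F, Finsupp.linearCombination ℚ
      (fun x => od (cl x) a • (Finsupp.single x 1 : ZP (RatFunc F))) α ∈ S) :
    rT (l ∘ₗ (Finsupp.linearCombination ℚ E) ∘ₗ od) α ∈ S := by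
  classical
  set A : Finset F := α.support.biUnion (fun x => (od (cl x)).support) with hA
  have h1 : rT (l ∘ₗ (Finsupp.linearCombination ℚ E) ∘ₗ od) α = ∑ a ∈ A, l (E a) •
      Finsupp.linearCombination ℚ
        (fun x => od (cl x) a • (Finsupp.single x 1 : ZP (RatFunc F))) α := by
    rw [rT, Finsupp.linearCombination_apply, Finsupp.sum]
    simp only [Finsupp.linearCombination_apply, Finsupp.sum, Finset.smul_sum]
    rw [Finset.sum_comm]
    apply Finset.sum_congr rfl
    intro x hx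
    have h2 : (l ∘ₗ (Finsupp.linearCombination ℚ E) ∘ₗ od) (cl x) =
        ∑ a ∈ A, od (cl x) a * l (E a) := by
      rw [LinearMap.comp_apply, LinearMap.comp_apply, Finsupp.linearCombination_apply,
        Finsupp.sum, map_sum]
      rw [Finset.sum_subset (s₁ := (od (cl x)).support) (s₂ := A)]
      · apply Finset.sum_congr rfl
        intro a _
        rw [map_smul, smul_eq_mul]
      · intro a ha
        rw [hA, Finset.mem_biUnion]
        exact ⟨x, hx, ha⟩
      · intro a _ ha
        rw [Finsupp.notMem_support_iff.1 ha, zero_smul, map_zero]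
    rw [h2, Finset.sum_smul, Finset.smul_sum]
    apply Finset.sum_congr rfl
    intro a _
    rw [smul_smul, smul_smul, smul_smul]
    congr 1
    ring
  rw [h1]
  exact Submodule.sum_mem _ (fun a _ => Submodule.smul_mem _ _ (hRES a))

private theorem r_lin_ext {F : Type} [Field F] {N : Type*} [AddCommGroup N] [Module ℚ N]
    {f g : V F →ₗ[ℚ] N} (h : ∀ x, f (lg x) = g (lg x)) : f = g := by
  apply LinearMap.ext_on_range (v := (lg : F → V F)) span_lg
  exact h

theorem mRIG {F : Type} [Field F] (k : ℕ)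
    {cV : V F →ₗ[ℚ] V (RatFunc F)} {lc : V (RatFunc F) →ₗ[ℚ] V F}
    {od : V (RatFunc F) →ₗ[ℚ] (F →₀ ℚ)} (hs : Spl cV lc od)
    (hSCL : ∃ σ : RatFunc F →+* RatFunc (RatFunc F),
      (∀ x : P1 (RatFunc F), val (1 : RatFunc F) (Option.map σ x) = x) ∧
      (∀ x : P1 (RatFunc F), val (0 : RatFunc F) (Option.map σ x) = cst (val (0 : F) x)) ∧
      ∀ c : F, σ (RatFunc.C c) = RatFunc.C (RatFunc.C c))
    (hTEN : ∀ {G : Type} [Field G] (S : Submodule ℚ (ZP G)) (α : ZP G),
      α ∈ LinearMap.ker (δ S) ↔ ∀ l : V G →ₗ[ℚ] ℚ,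
        Finsupp.linearCombination ℚ (fun x => l (cl x) • (Finsupp.single x 1 : ZP G)) α ∈ S)
    (hF : ∀ {G G' : Type} [Field G] [Field G'] (σ : G →+* G'), ∀ α ∈ R (k + 2) G,
      mapP σ α ∈ R (k + 2) G')
    (α : ZP (RatFunc F))
    (h : ∀ l : V (RatFunc F) →ₗ[ℚ] ℚ,
      Finsupp.linearCombination ℚ
        (fun x => l (cl x) • (Finsupp.single x 1 : ZP (RatFunc F))) α ∈
          R (k + 2) (RatFunc F) ⊔ LinearMap.range (mapP (RatFunc.C : F →+* RatFunc F)))
    (hRES : ∀ a : F, Finsupp.linearCombination ℚ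
      (fun x => od (cl x) a • (Finsupp.single x 1 : ZP (RatFunc F))) α ∈
        R (k + 2) (RatFunc F)) :
    α ∈ R (k + 3) (RatFunc F) ⊔ LinearMap.range (mapP (RatFunc.C : F →+* RatFunc F)) := by
  obtain ⟨σ, hσ1, hσ0, hσC⟩ := hSCL
  set C' : RatFunc F →+* RatFunc (RatFunc F) := RatFunc.C with hC'
  set γ : ZP (RatFunc (RatFunc F)) := mapP σ α - mapP C' α with hγ
  -- the two specialisations
  have e1 : spec (1 : RatFunc F) (mapP σ α) = α := by
    have : spec (1 : RatFunc F) ∘ₗ mapP σ = LinearMap.id := by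
      apply Finsupp.lhom_ext
      intro x c
      rw [LinearMap.comp_apply, r_mapP_single, r_spec_single, hσ1]
      rfl
    exact LinearMap.congr_fun this α
  have e0 : spec (0 : RatFunc F) (mapP σ α) = mapP RatFunc.C (spec (0 : F) α) := by
    have : spec (0 : RatFunc F) ∘ₗ mapP σ =
        mapP (RatFunc.C : F →+* RatFunc F) ∘ₗ spec (0 : F) := by
      apply Finsupp.lhom_ext
      intro x c
      rw [LinearMap.comp_apply, LinearMap.comp_apply, r_mapP_single, r_spec_single, r_spec_single,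
        r_mapP_single, hσ0]
      rfl
    exact LinearMap.congr_fun this α
  have eC : ∀ a : RatFunc F, spec a (mapP C' α) = α := by
    intro a
    have : spec a ∘ₗ mapP C' = LinearMap.id := by
      apply Finsupp.lhom_ext
      intro x c
      rw [LinearMap.comp_apply, r_mapP_single, r_spec_single]
      cases x with
      | none => rfl
      | some x =>
        rw [Option.map_some, hC', val_C]
        rfl
    exact LinearMap.congr_fun this α
  have hγs : (spec (0 : RatFunc F) - spec (1 : RatFunc F)) γ =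
      mapP RatFunc.C (spec (0 : F) α) - α := by
    rw [LinearMap.sub_apply, hγ, map_sub, map_sub, e0, e1, eC, eC]
    abel
  -- membership in the kernel
  have hker : γ ∈ LinearMap.ker (δ (R (k + 2) (RatFunc (RatFunc F)))) := by
    rw [hTEN]
    intro l
    change rT l γ ∈ R (k + 2) (RatFunc (RatFunc F))
    obtain ⟨L1, hL1⟩ := exists_map σ
    obtain ⟨L2, hL2⟩ := exists_map C'
    have hm : (l ∘ₗ L1) ∘ₗ cV = (l ∘ₗ L2) ∘ₗ cV := by
      apply r_lin_ext
      intro c
      rw [LinearMap.comp_apply, LinearMap.comp_apply, LinearMap.comp_apply, LinearMap.comp_apply,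
        hs.cV_lg, hL1, hL2, hσC, hC']
    have hdec : ∀ l' : V (RatFunc F) →ₗ[ℚ] ℚ, l' = (l' ∘ₗ cV) ∘ₗ lc +
        l' ∘ₗ (Finsupp.linearCombination ℚ E) ∘ₗ od := by
      intro l'
      apply LinearMap.ext
      intro v
      conv_lhs => rw [hs.dec v]
      rw [map_add]
      rfl
    have hξ := h (((l ∘ₗ L1) ∘ₗ cV) ∘ₗ lc)
    change rT (((l ∘ₗ L1) ∘ₗ cV) ∘ₗ lc) α ∈ _ at hξ
    rw [Submodule.mem_sup] at hξ
    obtain ⟨r, hr, s, ⟨β, hβ⟩, hrs⟩ := hξ
    have t1 : rT (l ∘ₗ L1) α = (r + s) +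
        rT ((l ∘ₗ L1) ∘ₗ (Finsupp.linearCombination ℚ E) ∘ₗ od) α := by
      conv_lhs => rw [hdec (l ∘ₗ L1)]
      rw [rT_add, hrs]
    have t2 : rT (l ∘ₗ L2) α = (r + s) +
        rT ((l ∘ₗ L2) ∘ₗ (Finsupp.linearCombination ℚ E) ∘ₗ od) α := by
      conv_lhs => rw [hdec (l ∘ₗ L2)]
      rw [rT_add, ← hm, hrs]
    have hss : mapP σ s = mapP C' s := by
      rw [← hβ]
      have : mapP σ ∘ₗ mapP (RatFunc.C : F →+* RatFunc F) =
          mapP C' ∘ₗ mapP (RatFunc.C : F →+* RatFunc F) := by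
        apply Finsupp.lhom_ext
        intro x c
        rw [LinearMap.comp_apply, LinearMap.comp_apply, r_mapP_single, r_mapP_single, r_mapP_single]
        cases x with
        | none => rfl
        | some x => rw [Option.map_some, Option.map_some, Option.map_some, hσC, hC']
      exact LinearMap.congr_fun this β
    have hfin : rT l γ = (mapP σ r - mapP C' r) +
        (mapP σ (rT ((l ∘ₗ L1) ∘ₗ (Finsupp.linearCombination ℚ E) ∘ₗ od) α) -
          mapP C' (rT ((l ∘ₗ L2) ∘ₗ (Finsupp.linearCombination ℚ E) ∘ₗ od) α)) := by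
      rw [hγ, map_sub, rT_map σ L1 hL1, rT_map C' L2 hL2, t1, t2, map_add, map_add, map_add,
        map_add, hss]
      abel
    rw [hfin]
    refine Submodule.add_mem _ (Submodule.sub_mem _ (hF σ r hr) (hF C' r hr))
      (Submodule.sub_mem _ (hF σ _ ?_) (hF C' _ ?_))
    · exact rT_od _ _ α hRES
    · exact rT_od _ _ α hRES
  have hR : (spec (0 : RatFunc F) - spec (1 : RatFunc F)) γ ∈ R (k + 3) (RatFunc F) := by
    change _ ∈ Rgen (RatFunc F) (LinearMap.ker (δ (R (k + 2) (RatFunc (RatFunc F)))))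
    exact Submodule.mem_sup_right (Submodule.mem_map_of_mem hker)
  rw [hγs] at hR
  rw [Submodule.mem_sup]
  refine ⟨-(mapP RatFunc.C (spec (0 : F) α) - α), Submodule.neg_mem _ hR,
    mapP RatFunc.C (spec (0 : F) α), ⟨_, rfl⟩, ?_⟩
  abel

end Pool.Agent.Helper19.HV
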